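import Pool.Agent.Lib.MP_c44c69_co.Subdiv

/-!
# Integral lifts of the labels of a map to `Q_1 G`
-/

namespace Pool.Agent.MP_c44c69_co

variable {G : Type} [Group G]

/-- For `κ` in a group there is a labelling `G → ZMod (orderOf κ)` that increases by one under left
multiplication by `κ`. -/
theorem exists_label (κ : G) :
    ∃ ℓ : G → ZMod (orderOf κ), ∀ g, ℓ (κ * g) = ℓ g + 1 := by
  classical
  have hrep : ∀ g : G, ∃ i : ℤ,
      g⁻¹ = (Quotient.out (s := QuotientGroup.leftRel (Subgroup.zpowers κ))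
        (Quotient.mk _ g⁻¹)) * κ ^ i := by
    intro g
    have h : (QuotientGroup.leftRel (Subgroup.zpowers κ)).r
        (Quotient.out (s := QuotientGroup.leftRel (Subgroup.zpowers κ)) (Quotient.mk _ g⁻¹)) g⁻¹ :=
      Quotient.exact (Quotient.out_eq (s := QuotientGroup.leftRel (Subgroup.zpowers κ))
        (Quotient.mk _ g⁻¹))
    have h2 := (QuotientGroup.leftRel_apply (s := Subgroup.zpowers κ)).mp h
    obtain ⟨i, hi⟩ := Subgroup.mem_zpowers_iff.mp h2
    exact ⟨i, by rw [hi]; group⟩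
  choose i hi using hrep
  refine ⟨fun g => -(i g : ZMod (orderOf κ)), ?_⟩
  intro g
  have e1 : (Quotient.mk (QuotientGroup.leftRel (Subgroup.zpowers κ)) (κ * g)⁻¹) =
      Quotient.mk _ g⁻¹ := by
    apply Quotient.sound
    apply (QuotientGroup.leftRel_apply (s := Subgroup.zpowers κ)).mpr
    rw [inv_inv]
    have : κ * g * g⁻¹ = κ := by group
    rw [this]
    exact Subgroup.mem_zpowers κ
  have h1 := hi (κ * g)
  rw [e1] at h1
  have h2 := hi g
  have h3 : κ ^ (i (κ * g) + 1) = κ ^ (i g) := by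
    have h4 : (κ * g)⁻¹ * κ = g⁻¹ := by group
    rw [zpow_add, zpow_one]
    have h5 : (Quotient.out (s := QuotientGroup.leftRel (Subgroup.zpowers κ))
        (Quotient.mk _ g⁻¹)) * (κ ^ (i (κ * g)) * κ) =
        (Quotient.out (s := QuotientGroup.leftRel (Subgroup.zpowers κ))
        (Quotient.mk _ g⁻¹)) * κ ^ (i g) := by
      rw [← h2, ← mul_assoc, ← h1, h4]
    exact mul_left_cancel h5
  rw [zpow_eq_zpow_iff_modEq] at h3
  have h4 := (ZMod.intCast_eq_intCast_iff _ _ _).mpr h3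
  push_cast at h4
  show -((i (κ * g) : ℤ) : ZMod (orderOf κ)) = -((i g : ℤ) : ZMod (orderOf κ)) + 1
  rw [← h4]
  ring

/-- A `κ`-equivariant order preserving map `Sd Q → Q_1 G` yields an integral cocycle on `Q`. -/
theorem exists_cocycle {Q : Type} [PartialOrder Q] [MulAction G Q] [IsGPoset G Q] (κ : G)
    (hκ0 : orderOf κ ≠ 0)
    (F : Sd Q → QPoset G 1) (hF : Monotone F) (hκ : ∀ s, F (κ • s) = κ • F s) :
    ∃ (ℓ : Q → ZMod (orderOf κ)) (D : Q → Q → ℤ),
      (∀ a b c, a ≤ b → b ≤ c → D a c = D a b + D b c) ∧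
      (∀ a b, a ≤ b → D (κ • a) (κ • b) = D a b) ∧
      (∀ a b, a ≤ b → ((D a b : ℤ) : ZMod (orderOf κ)) = ℓ b - ℓ a) ∧
      (∀ a, ℓ (κ • a) = ℓ a + 1) := by
  classical
  have : NeZero (orderOf κ) := ⟨hκ0⟩
  obtain ⟨ℓ, hℓ⟩ := exists_label κ
  -- the cochain on `Q_1 G`
  let δ : QPoset G 1 → QPoset G 1 → ℤ := fun x y =>
    if x = y then 0 else ((ℓ y.elt - ℓ x.elt).val : ℤ)
  have δmod : ∀ x y, ((δ x y : ℤ) : ZMod (orderOf κ)) = ℓ y.elt - ℓ x.elt := by
    intro x y
    by_cases h : x = y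
    · simp [δ, h]
    · simp [δ, h]
  have δκ : ∀ x y, δ (κ • x) (κ • y) = δ x y := by
    intro x y
    by_cases h : x = y
    · simp [δ, h]
    · have h' : κ • x ≠ κ • y := fun h' => h (MulAction.injective κ h')
      simp only [δ, h, h', if_false, QPoset.smul_elt, hℓ]
      congr 2
      ring
  have δadd : ∀ x y z, x ≤ y → y ≤ z → δ x z = δ x y + δ y z := by
    intro x y z hxy hyz
    rcases hxy with rfl | h1
    · simp [δ]
    · rcases hyz with rfl | h2
      · simp [δ]
      · exfalso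
        have hx := x.lev.isLt
        have hy := y.lev.isLt
        have hz := z.lev.isLt
        have h1' : x.lev.val < y.lev.val := h1
        have h2' : y.lev.val < z.lev.val := h2
        omega
  -- the cochain on `Q`
  let D : Q → Q → ℤ := fun a b =>
    if h : a ≤ b then δ (F (Sd.single a)) (F (Sd.pair a b h)) -
      δ (F (Sd.single b)) (F (Sd.pair a b h)) else 0
  have key : ∀ (a b : Q) (h : a ≤ b) (s : Sd Q), Sd.pair a b h ≤ s →
      D a b = δ (F (Sd.single a)) (F s) - δ (F (Sd.single b)) (F s) := by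
    intro a b h s hs
    have h1 := δadd _ _ _ (hF (Sd.single_le_pair_left a b h)) (hF hs)
    have h2 := δadd _ _ _ (hF (Sd.single_le_pair_right a b h)) (hF hs)
    simp only [D, h, dif_pos]
    rw [h1, h2]
    ring
  refine ⟨fun a => ℓ (F (Sd.single a)).elt, D, ?_, ?_, ?_, ?_⟩
  · intro a b c hab hbc
    rw [key a b hab _ (Sd.pair_le_triple₁ a b c hab hbc),
      key b c hbc _ (Sd.pair_le_triple₂ a b c hab hbc),
      key a c (hab.trans hbc) _ (Sd.pair_le_triple₃ a b c hab hbc)]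
    ring
  · intro a b hab
    have hab' : κ • a ≤ κ • b := IsGPoset.smul_mono κ hab
    simp only [D, hab, hab', dif_pos]
    rw [← Sd.smul_single, ← Sd.smul_single, ← Sd.smul_pair _ _ _ hab, hκ, hκ, hκ, δκ, δκ]
  · intro a b hab
    simp only [D, hab, dif_pos]
    push_cast
    rw [δmod, δmod]
    ring
  · intro a
    show ℓ (F (Sd.single (κ • a))).elt = ℓ (F (Sd.single a)).elt + 1
    rw [← Sd.smul_single, hκ, QPoset.smul_elt, hℓ]

end Pool.Agent.MP_c44c69_co
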