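import Pool.Agent.Lib.MP_c44c69_co.Second

/-!
# The coinduced poset and the first factor
-/

namespace Pool.Agent.MP_c44c69_co

variable {G : Type} [Group G]

/-- The poset of maps `f : G → Q_1 G` with `f (η g) = η • f g`, ordered pointwise. -/
def Coind (G : Type) [Group G] (η : G) : Type :=
  {f : G → QPoset G 1 // ∀ g, f (η * g) = η • f g}

namespace Coind

variable {η : G}

instance : PartialOrder (Coind G η) :=
  inferInstanceAs (PartialOrder {f : G → QPoset G 1 // ∀ g, f (η * g) = η • f g})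

theorem le_def (f f' : Coind G η) : f ≤ f' ↔ ∀ g, f.1 g ≤ f'.1 g := Iff.rfl

instance : MulAction G (Coind G η) where
  smul x f := ⟨fun g => f.1 (g * x), fun g => by
    have h := f.2 (g * x)
    rw [← mul_assoc] at h
    exact h⟩
  one_smul f := by
    apply Subtype.ext
    funext g
    show f.1 (g * 1) = f.1 g
    rw [mul_one]
  mul_smul x y f := by
    apply Subtype.ext
    funext g
    show f.1 (g * (x * y)) = f.1 (g * x * y)
    rw [mul_assoc]

theorem smul_apply (x : G) (f : Coind G η) (g : G) : (x • f).1 g = f.1 (g * x) := rfl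

instance : IsGPoset G (Coind G η) where
  smul_mono x f f' h := fun g => h (g * x)

instance [Finite G] : Finite (Coind G η) :=
  inferInstanceAs (Finite {f : G → QPoset G 1 // ∀ g, f (η * g) = η • f g})

theorem apply_pow (f : Coind G η) (k : ℕ) (g : G) : f.1 (η ^ k * g) = η ^ k • f.1 g := by
  induction k generalizing g with
  | zero => simp
  | succ k ih => rw [pow_succ, mul_assoc, ih, f.2, mul_smul]

theorem apply_mem [Finite G] (f : Coind G η) {h : G} (hh : h ∈ Subgroup.zpowers η) (g : G) :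
    f.1 (h * g) = h • f.1 g := by
  obtain ⟨k, hk⟩ := (mem_powers_iff_mem_zpowers (x := η) (y := h)).mpr hh
  rw [← hk]
  exact apply_pow f k g

theorem isFree [Finite G]
    (hmin : ∀ x : G, x ≠ 1 → ∃ k : ℕ, x ^ k ∈ Subgroup.zpowers η ∧ x ^ k ≠ 1) :
    IsFree G (Coind G η) := by
  intro x f hx
  by_contra hne
  obtain ⟨k, hk1, hk2⟩ := hmin x hne
  have h1 : ∀ k : ℕ, (x ^ k) • f = f := by
    intro k
    induction k with
    | zero => simp
    | succ k ih => rw [pow_succ, mul_smul, hx, ih]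
  have h2 : f.1 (1 * x ^ k) = f.1 1 := by
    rw [← smul_apply, h1]
  have h3 : f.1 (x ^ k * 1) = (x ^ k) • f.1 1 := apply_mem f hk1 1
  rw [one_mul] at h2
  rw [mul_one, h2] at h3
  exact hk2 (QPoset.isFree _ _ h3.symm)

/-- The `G`-map from the product of the two factors to `Q_1 G`. -/
theorem prod_map [Finite G] :
    ∃ f : Sd (Coind G η) × Sec G η → QPoset G 1, IsGMap G f := by
  have hwd : ∀ (f : Coind G η) (g g' : G), (g : G ⧸ Subgroup.zpowers η) = g' →
      g • f.1 g⁻¹ = g' • f.1 g'⁻¹ := by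
    intro f g g' h
    rw [QuotientGroup.eq] at h
    have h1 := apply_mem f h g'⁻¹
    rw [show g⁻¹ * g' * g'⁻¹ = g⁻¹ by group] at h1
    rw [h1, ← mul_smul, mul_inv_cancel_left]
  refine ⟨fun x => (Quotient.out x.2.cos) • x.1.top.1 (Quotient.out x.2.cos)⁻¹, ?_, ?_⟩
  · rintro ⟨s, t⟩ ⟨s', t'⟩ ⟨h1, h2⟩
    show (Quotient.out t.cos) • s.top.1 (Quotient.out t.cos)⁻¹ ≤
      (Quotient.out t'.cos) • s'.top.1 (Quotient.out t'.cos)⁻¹
    have h3 : t.cos = t'.cos := h2.1
    rw [h3]
    exact IsGPoset.smul_mono _ (Sd.top_mono h1 _)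
  · rintro g ⟨s, t⟩
    show (Quotient.out (g • t.cos)) • (g • s).top.1 (Quotient.out (g • t.cos))⁻¹ =
      g • (Quotient.out t.cos) • s.top.1 (Quotient.out t.cos)⁻¹
    rw [Sd.top_smul]
    have e : ((Quotient.out (g • t.cos) : G) : G ⧸ Subgroup.zpowers η) =
        ((g * Quotient.out t.cos : G) : G ⧸ Subgroup.zpowers η) := by
      rw [← smul_eq_mul, ← MulAction.Quotient.smul_coe]
      rw [QuotientGroup.out_eq', QuotientGroup.out_eq']
    rw [hwd _ _ _ e, smul_apply, mul_smul, mul_inv_rev, inv_mul_cancel_right]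

end Coind

end Pool.Agent.MP_c44c69_co
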