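import Mathlib

/-!
# G-posets, the posets `Q_n G`, simplicial posets, the cross-index
-/

namespace Pool.Agent.MP_c44c69_co

/-- A finite group is nice if it is a cyclic `p`-group for some prime `p`, or a generalized
quaternion group `Q_{4n}` (`n ≥ 2`) whose order `4n` is a power of two. -/
def IsNice (G : Type) [Group G] : Prop :=
  (IsCyclic G ∧ ∃ p k : ℕ, p.Prime ∧ Nat.card G = p ^ k) ∨
  (∃ n k : ℕ, 2 ≤ n ∧ 4 * n = 2 ^ k ∧ Nonempty (G ≃* QuaternionGroup n))

/-- The action of `G` on the poset `P` is order preserving. -/
class IsGPoset (G P : Type) [Group G] [PartialOrder P] [MulAction G P] : Prop where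
  smul_mono : ∀ (g : G) {a b : P}, a ≤ b → g • a ≤ g • b

/-- The action of `G` on `P` is free. -/
def IsFree (G P : Type) [Group G] [MulAction G P] : Prop :=
  ∀ (g : G) (p : P), g • p = p → g = 1

/-- A simplicial poset: each principal down-set is isomorphic to the poset of nonempty subsets
of a finite nonempty set. -/
def IsSimplicial (P : Type) [PartialOrder P] : Prop :=
  ∀ p : P, ∃ n : ℕ, Nonempty (Set.Iic p ≃o {s : Finset (Fin (n + 1)) // s.Nonempty})

/-- The underlying set `G × {0, …, n}` of the poset `Q_n G`. -/
@[ext]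
structure QPoset (G : Type) (n : ℕ) where
  /-- the group coordinate -/
  elt : G
  /-- the level -/
  lev : Fin (n + 1)

/-- The order of `Q_n G`: `(g,i) < (h,j)` iff `i < j`. -/
instance (G : Type) (n : ℕ) : PartialOrder (QPoset G n) where
  le x y := x = y ∨ x.lev < y.lev
  le_refl x := Or.inl rfl
  le_trans x y z := by
    rintro (rfl | h1) (rfl | h2)
    · exact Or.inl rfl
    · exact Or.inr h2
    · exact Or.inr h1
    · exact Or.inr (h1.trans h2)
  le_antisymm x y := by
    rintro (h | h1) (h' | h2)
    · exact h
    · exact h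
    · exact h'.symm
    · exact absurd (h1.trans h2) (lt_irrefl _)

/-- The action `g • (h,i) = (g h, i)` of `G` on `Q_n G`. -/
instance (G : Type) [Group G] (n : ℕ) : MulAction G (QPoset G n) where
  smul g x := ⟨g * x.elt, x.lev⟩
  one_smul x := by
    show (⟨1 * x.elt, x.lev⟩ : QPoset G n) = x
    rw [one_mul]
  mul_smul g h x := by
    show (⟨g * h * x.elt, x.lev⟩ : QPoset G n) = ⟨g * (h * x.elt), x.lev⟩
    rw [mul_assoc]

/-- `f` is a `G`-map: order preserving and equivariant. -/
def IsGMap (G : Type) {P Q : Type} [Group G] [PartialOrder P] [PartialOrder Q]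
    [MulAction G P] [MulAction G Q] (f : P → Q) : Prop :=
  Monotone f ∧ ∀ (g : G) (p : P), f (g • p) = g • f p

/-- The cross-index: the least `n` such that there is a `G`-map `P → Q_n G`. -/
noncomputable def Xind (G P : Type) [Group G] [PartialOrder P] [MulAction G P] : ℕ :=
  sInf {n : ℕ | ∃ f : P → QPoset G n, IsGMap G f}

/-! ### Basic lemmas -/

section Basic

variable {G : Type} [Group G] {n : ℕ}

omit [Group G] in
theorem QPoset.le_def (x y : QPoset G n) : x ≤ y ↔ x = y ∨ x.lev < y.lev := Iff.rfl

@[simp] theorem QPoset.smul_elt (g : G) (x : QPoset G n) : (g • x).elt = g * x.elt := rfl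
@[simp] theorem QPoset.smul_lev (g : G) (x : QPoset G n) : (g • x).lev = x.lev := rfl

instance : IsGPoset G (QPoset G n) where
  smul_mono g a b h := by
    rcases h with rfl | h
    · exact le_refl _
    · exact Or.inr h

theorem QPoset.isFree : IsFree G (QPoset G n) := by
  intro g p h
  have := congrArg QPoset.elt h
  simpa using this

instance [Finite G] : Finite (QPoset G n) :=
  Finite.of_injective (fun x : QPoset G n => (x.elt, x.lev)) (by
    intro x y h
    simp only [Prod.mk.injEq] at h
    exact QPoset.ext h.1 h.2)

end Basic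

/-- Every finite free `G`-poset has a `G`-map to some `Q_n G`, so the minimum in the definition of
the cross-index is over a nonempty set. -/
theorem exists_gmap (G P : Type) [Group G] [PartialOrder P] [MulAction G P] [Finite P]
    [IsGPoset G P] (hfree : IsFree G P) : ∃ n : ℕ, ∃ f : P → QPoset G n, IsGMap G f := by
  classical
  have := Fintype.ofFinite P
  let rk : P → ℕ := fun p => (Finset.univ.filter (fun q : P => q < p)).card
  have hlt : ∀ (g : G) (a b : P), a < b → g • a < g • b := by
    intro g a b hab
    refine lt_of_le_of_ne (IsGPoset.smul_mono g hab.le) ?_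
    intro h
    exact hab.ne (MulAction.injective g h)
  have hrk : ∀ (g : G) (p : P), rk (g • p) = rk p := by
    intro g p
    have : (Finset.univ.filter (fun q : P => q < g • p)) =
        (Finset.univ.filter (fun q : P => q < p)).map (MulAction.toPerm g).toEmbedding := by
      ext q
      simp only [Finset.mem_filter, Finset.mem_univ, true_and, Finset.mem_map,
        Equiv.coe_toEmbedding, MulAction.toPerm_apply]
      constructor
      · intro h
        refine ⟨g⁻¹ • q, ?_, by simp⟩
        have := hlt g⁻¹ _ _ h
        simpa using this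
      · rintro ⟨a, ha, rfl⟩
        exact hlt g _ _ ha
    show (Finset.univ.filter (fun q : P => q < g • p)).card = _
    rw [this, Finset.card_map]
  have hmono : ∀ a b : P, a < b → rk a < rk b := by
    intro a b hab
    apply Finset.card_lt_card
    refine ⟨?_, ?_⟩
    · intro q hq
      simp only [Finset.mem_filter, Finset.mem_univ, true_and] at hq ⊢
      exact hq.trans hab
    · intro h
      have : a ∈ Finset.univ.filter (fun q : P => q < a) := h (by simpa using hab)
      simp at this
  have hbound : ∀ p, rk p < Fintype.card P + 1 := by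
    intro p
    exact Nat.lt_succ_of_le (Finset.card_le_univ _)
  -- orbit representatives
  have hrep : ∀ p : P, ∃ g : G, g • (Quotient.out (s := MulAction.orbitRel G P) (Quotient.mk _ p)) = p := by
    intro p
    have h : (MulAction.orbitRel G P).r (Quotient.out (s := MulAction.orbitRel G P) (Quotient.mk _ p)) p :=
      Quotient.exact (Quotient.out_eq (s := MulAction.orbitRel G P) (Quotient.mk _ p))
    have h2 : (MulAction.orbitRel G P).r p (Quotient.out (s := MulAction.orbitRel G P) (Quotient.mk _ p)) :=
      (MulAction.orbitRel G P).symm h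
    obtain ⟨g, hg⟩ := MulAction.orbitRel_apply.mp h2
    exact ⟨g, hg⟩
  choose γ hγ using hrep
  refine ⟨Fintype.card P, fun p => ⟨γ p, ⟨rk p, hbound p⟩⟩, ?_, ?_⟩
  · intro a b hab
    rcases hab.eq_or_lt with rfl | hlt'
    · exact le_refl _
    · exact Or.inr (hmono a b hlt')
  · intro g p
    have e1 : (Quotient.mk (MulAction.orbitRel G P) (g • p)) = Quotient.mk _ p := by
      apply Quotient.sound
      exact ⟨g, rfl⟩
    have h1 := hγ (g • p)
    rw [e1] at h1
    have h2 := hγ p
    have h3 : γ (g • p) = g * γ p := by
      have h4 : ((g * γ p)⁻¹ * γ (g • p)) •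
          (Quotient.out (s := MulAction.orbitRel G P) (Quotient.mk _ p)) =
          (Quotient.out (s := MulAction.orbitRel G P) (Quotient.mk _ p)) := by
        rw [mul_smul, h1, inv_smul_eq_iff, mul_smul, h2]
      have h5 := hfree _ _ h4
      exact (inv_mul_eq_one.mp h5).symm
    apply QPoset.ext
    · exact h3
    · exact Fin.ext (hrk g p)

/-- If there is a `G`-map to `Q_n G` then the cross-index is at most `n`. -/
theorem Xind_le {G P : Type} [Group G] [PartialOrder P] [MulAction G P] {n : ℕ}
    (h : ∃ f : P → QPoset G n, IsGMap G f) : Xind G P ≤ n := Nat.sInf_le h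

/-- Lower bound for the cross-index by two. -/
theorem two_le_Xind {G P : Type} [Group G] [PartialOrder P] [MulAction G P] [Finite P]
    [IsGPoset G P] (hfree : IsFree G P)
    (h : ¬ ∃ f : P → QPoset G 1, IsGMap G f) : 2 ≤ Xind G P := by
  obtain ⟨n, hn⟩ := exists_gmap G P hfree
  have hmem := Nat.sInf_mem (s := {n : ℕ | ∃ f : P → QPoset G n, IsGMap G f}) ⟨n, hn⟩
  change ∃ f : P → QPoset G (Xind G P), IsGMap G f at hmem
  by_contra hlt
  rw [not_le] at hlt
  apply h
  obtain ⟨f, hf1, hf2⟩ := hmem
  have hle : Xind G P + 1 ≤ 1 + 1 := by omega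
  refine ⟨fun p => ⟨(f p).elt, Fin.castLE hle (f p).lev⟩, ?_, ?_⟩
  · intro a b hab
    rcases hf1 hab with h' | h'
    · left
      simp only [h']
    · right
      exact h'
  · intro g p
    simp only [hf2]
    rfl

end Pool.Agent.MP_c44c69_co
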