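import Pool.Agent.Lib.MP_c44c69_co.Coind

/-!
# There is no `G`-map from the first factor to `Q_1 G`
-/

namespace Pool.Agent.MP_c44c69_co

variable {G : Type} [Group G]

theorem exists_label' (κ : G) (m : ℕ) (hm : orderOf κ = m) :
    ∃ ℓ : G → ZMod m, ∀ g, ℓ (κ * g) = ℓ g + 1 := by
  subst hm
  exact exists_label κ

theorem exists_cocycle' {Q : Type} [PartialOrder Q] [MulAction G Q] [IsGPoset G Q] (κ : G)
    (m : ℕ) (hm : orderOf κ = m) (hκ0 : m ≠ 0)
    (F : Sd Q → QPoset G 1) (hF : Monotone F) (hκ : ∀ s, F (κ • s) = κ • F s) :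
    ∃ (ℓ : Q → ZMod m) (D : Q → Q → ℤ),
      (∀ a b c, a ≤ b → b ≤ c → D a c = D a b + D b c) ∧
      (∀ a b, a ≤ b → D (κ • a) (κ • b) = D a b) ∧
      (∀ a b, a ≤ b → ((D a b : ℤ) : ZMod m) = ℓ b - ℓ a) ∧
      (∀ a, ℓ (κ • a) = ℓ a + 1) := by
  subst hm
  exact exists_cocycle κ hκ0 F hF hκ

/-- Coordinates on `G` for an element `κ` of order `p²` whose `p`-th power is central. -/
theorem exists_coords (p : ℕ) (hp : p.Prime) (κ : G) (hκ : orderOf κ = p * p)
    (hcent : ∀ g : G, κ ^ p * g = g * κ ^ p) :
    ∃ (w r : G → ZMod p),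
      (∀ g, r (g * κ) = r g + 1) ∧
      (∀ g, w (g * κ) = w g + (Pi.single (-1 : ZMod p) (1 : ZMod p) : ZMod p → ZMod p) (r g)) ∧
      (∀ g, r (κ ^ p * g) = r g) ∧
      (∀ g, w (κ ^ p * g) = w g + 1) := by
  classical
  have hp0 : 0 < p := hp.pos
  have : NeZero p := ⟨hp.ne_zero⟩
  have hpp : NeZero (p * p) := ⟨Nat.mul_ne_zero hp.ne_zero hp.ne_zero⟩
  obtain ⟨ℓ, hℓ⟩ := exists_label' κ (p * p) hκ
  let pos : G → ZMod (p * p) := fun g => - ℓ g⁻¹
  have hpos : ∀ g, pos (g * κ) = pos g + 1 := by
    intro g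
    have h := hℓ (g * κ)⁻¹
    have e : κ * (g * κ)⁻¹ = g⁻¹ := by group
    rw [e] at h
    show - ℓ (g * κ)⁻¹ = - ℓ g⁻¹ + 1
    rw [h]; ring
  have hposk : ∀ (k : ℕ) (g : G), pos (g * κ ^ k) = pos g + k := by
    intro k
    induction k with
    | zero => intro g; simp
    | succ k ih =>
      intro g
      rw [pow_succ, ← mul_assoc, hpos, ih]
      push_cast; ring
  have hval : ∀ x : ZMod (p * p), (x + 1).val = if x.val + 1 = p * p then 0 else x.val + 1 := by
    intro x
    have hx := ZMod.val_lt x
    split_ifs with h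
    · rw [ZMod.val_add, ZMod.val_one'' (by
        intro h1
        have := Nat.eq_one_of_mul_eq_one_right h1
        exact hp.one_lt.ne' this), h, Nat.mod_self]
    · rw [ZMod.val_add, ZMod.val_one'' (by
        intro h1
        have := Nat.eq_one_of_mul_eq_one_right h1
        exact hp.one_lt.ne' this), Nat.mod_eq_of_lt (by omega)]
  let ρ : ZMod (p * p) → ZMod p := fun x => (x.val : ZMod p)
  let u : ZMod (p * p) → ZMod p := fun x => ((x.val / p : ℕ) : ZMod p)
  have hρ : ∀ x, ρ (x + 1) = ρ x + 1 := by
    intro x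
    show ((x + 1).val : ZMod p) = (x.val : ZMod p) + 1
    rw [hval]
    split_ifs with h
    · have : ((x.val + 1 : ℕ) : ZMod p) = 0 := by rw [h]; simp
      push_cast at this
      rw [Nat.cast_zero, this]
    · push_cast; rfl
  have hρ1 : ∀ x, ρ x = -1 ↔ (x.val + 1) % p = 0 := by
    intro x
    show ((x.val : ℕ) : ZMod p) = -1 ↔ _
    rw [← Nat.dvd_iff_mod_eq_zero, ← ZMod.natCast_eq_zero_iff]
    push_cast
    constructor
    · intro h; rw [h]; ring
    · intro h
      exact eq_neg_of_add_eq_zero_left h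
  have hu : ∀ x, u (x + 1) = u x + (Pi.single (-1 : ZMod p) (1 : ZMod p) : ZMod p → ZMod p) (ρ x) := by
    intro x
    show (((x + 1).val / p : ℕ) : ZMod p) = ((x.val / p : ℕ) : ZMod p) + _
    rw [Pi.single_apply]
    have hx := ZMod.val_lt x
    by_cases h1 : ρ x = -1
    · rw [if_pos h1]
      have h2 := (hρ1 x).mp h1
      obtain ⟨c, hc⟩ := Nat.dvd_of_mod_eq_zero h2
      have hc0 : 0 < c := by
        rcases Nat.eq_zero_or_pos c with rfl | h
        · omega
        · exact h
      have hdiv : x.val / p = c - 1 := by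
        obtain ⟨c', rfl⟩ : ∃ c', c = c' + 1 := ⟨c - 1, by omega⟩
        have e : x.val = p * c' + (p - 1) := by
          have : x.val + 1 = p * c' + p := by rw [hc]; ring
          omega
        rw [e, Nat.mul_add_div hp0, Nat.div_eq_of_lt (by omega)]
        simp
      rw [hval, hdiv]
      split_ifs with h
      · have hcp : c = p := by
          have : p * c = p * p := by rw [← hc, h]
          exact Nat.eq_of_mul_eq_mul_left hp0 this
        rw [hcp, Nat.zero_div, Nat.cast_zero, Nat.cast_sub hp0]
        simp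
      · rw [hc, Nat.mul_div_cancel_left _ hp0, Nat.cast_sub hc0]
        simp
    · rw [if_neg h1, add_zero]
      have h2 : ¬ (x.val + 1) % p = 0 := fun h => h1 ((hρ1 x).mpr h)
      rw [hval]
      have h3 : ¬ (x.val + 1 = p * p) := by
        intro h
        apply h2
        rw [h]; simp
      rw [if_neg h3]
      congr 1
      rw [Nat.add_div hp0]
      have h4 : (x.val + 1) % p ≠ 0 := h2
      rw [Nat.div_eq_of_lt hp.one_lt, Nat.mod_eq_of_lt hp.one_lt]
      have h5 : ¬ (p ≤ x.val % p + 1) := by
        intro h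
        have h6 := Nat.mod_lt x.val hp0
        have h7 : x.val % p + 1 = p := by omega
        apply h4
        rw [Nat.add_mod, Nat.mod_eq_of_lt hp.one_lt, h7, Nat.mod_self]
      rw [if_neg h5, add_zero, add_zero]
  -- iterate
  have hρp : ∀ (k : ℕ) x, ρ (x + k) = ρ x + k := by
    intro k
    induction k with
    | zero => intro x; simp
    | succ k ih =>
      intro x
      push_cast
      rw [← add_assoc, hρ, ih]; ring
  have hup : ∀ x, u (x + p) = u x + 1 := by
    intro x
    have h1 : ∀ k : ℕ, u (x + k) = u x + ∑ j ∈ Finset.range k,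
        (Pi.single (-1 : ZMod p) (1 : ZMod p) : ZMod p → ZMod p) (ρ x + j) := by
      intro k
      induction k with
      | zero => simp
      | succ k ih =>
        push_cast
        rw [← add_assoc, hu, ih, Finset.sum_range_succ, hρp, add_assoc]
    rw [h1]
    congr 1
    have h2 : ∀ j ∈ Finset.range p, (Pi.single (-1 : ZMod p) (1 : ZMod p) : ZMod p → ZMod p)
        (ρ x + j) = if j = (-1 - ρ x).val then 1 else 0 := by
      intro j hj
      rw [Pi.single_apply]
      congr 1
      apply propext
      constructor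
      · intro h
        have h3 : (j : ZMod p) = -1 - ρ x := by rw [← h]; ring
        rw [← h3, ZMod.val_natCast, Nat.mod_eq_of_lt (Finset.mem_range.mp hj)]
      · intro h
        rw [h, ZMod.natCast_zmod_val]; ring
    rw [Finset.sum_congr rfl h2, Finset.sum_ite_eq' (Finset.range p) _ _]
    rw [if_pos (Finset.mem_range.mpr (ZMod.val_lt _))]
  refine ⟨fun g => u (pos g), fun g => ρ (pos g), ?_, ?_, ?_, ?_⟩
  · intro g
    show ρ (pos (g * κ)) = ρ (pos g) + 1
    rw [hpos, hρ]
  · intro g
    show u (pos (g * κ)) = u (pos g) + _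
    rw [hpos, hu]
  · intro g
    show ρ (pos (κ ^ p * g)) = ρ (pos g)
    rw [hcent, hposk, hρp]; simp
  · intro g
    show u (pos (κ ^ p * g)) = u (pos g) + 1
    rw [hcent, hposk, hup]

/-- The main nonexistence statement. -/
theorem no_map_first (p : ℕ) (hp : p.Prime) (κ η : G) (hκ : orderOf κ = p * p)
    (hη : η = κ ^ p) (hcent : ∀ g : G, η * g = g * η) :
    ¬ ∃ f : Sd (Coind G η) → QPoset G 1, IsGMap G f := by
  classical
  rintro ⟨F, hF1, hF2⟩
  have hp0 : 0 < p := hp.pos
  have : NeZero p := ⟨hp.ne_zero⟩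
  have hpp : p * p ≠ 0 := Nat.mul_ne_zero hp.ne_zero hp.ne_zero
  obtain ⟨ℓ, D, h1, h2, h3, h4⟩ := exists_cocycle' κ (p * p) hκ hpp F hF1 (fun s => hF2 κ s)
  obtain ⟨w, r, hr, hw, hrη, hwη⟩ := exists_coords p hp κ hκ (by rw [← hη]; exact hcent)
  rw [← hη] at hrη hwη
  have hηord : orderOf η = p := by
    rw [hη, orderOf_pow' _ hp.ne_zero, hκ, Nat.gcd_mul_left_left, Nat.mul_div_cancel _ hp0]
  let E : ZMod p → G := fun x => η ^ x.val
  have hE : ∀ x, E (x + 1) = η * E x := by
    intro x
    show η ^ (x + 1).val = η * η ^ x.val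
    have h := pow_mod_orderOf η (x.val + 1)
    rw [hηord] at h
    rw [ZMod.val_add, ZMod.val_one'' hp.one_lt.ne', h, pow_succ']
  -- the configurations
  let cf : (ZMod p → ZMod p) → (ZMod p → Fin 2) → Coind G η := fun n t =>
    ⟨fun g => ⟨E (w g + n (r g)), t (r g)⟩, fun g => by
      apply QPoset.ext
      · show E (w (η * g) + n (r (η * g))) = η * E (w g + n (r g))
        rw [hrη, hwη, ← hE]
        congr 1
        ring
      · show t (r (η * g)) = t (r g)
        rw [hrη]⟩
  let sg : ZMod p → ZMod p → ZMod p := fun i => Pi.single i 1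
  let lv : ZMod p → ZMod p → Fin 2 := fun i x => if x = i then 1 else 0
  have hle : ∀ (n n' : ZMod p → ZMod p) (t t' : ZMod p → Fin 2),
      (∀ x, (n x = n' x ∧ t x = t' x) ∨ t x < t' x) → cf n t ≤ cf n' t' := by
    intro n n' t t' h g
    rcases h (r g) with ⟨ha, hb⟩ | ha
    · left
      apply QPoset.ext
      · show E (w g + n (r g)) = E (w g + n' (r g))
        rw [ha]
      · exact hb
    · right
      exact ha
  let sh : (ZMod p → ZMod p) → (ZMod p → ZMod p) := fun n x => n (x + 1) + sg (-1) x
  have hκcf : ∀ n t, κ • cf n t = cf (sh n) (fun x => t (x + 1)) := by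
    intro n t
    apply Subtype.ext
    funext g
    apply QPoset.ext
    · show E (w (g * κ) + n (r (g * κ))) = E (w g + (n (r g + 1) + sg (-1) (r g)))
      rw [hw, hr]
      congr 1
      ring
    · show t (r (g * κ)) = t (r g + 1)
      rw [hr]
  have hηcf : ∀ n t, η • cf n t = cf (n + 1) t := by
    intro n t
    apply Subtype.ext
    funext g
    apply QPoset.ext
    · show E (w (g * η) + n (r (g * η))) = E (w g + (n (r g) + 1))
      rw [← hcent, hwη, hrη]
      congr 1
      ring
    · show t (r (g * η)) = t (r g)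
      rw [← hcent, hrη]
  have hDk : ∀ (k : ℕ) a b, a ≤ b → D (κ ^ k • a) (κ ^ k • b) = D a b := by
    intro k
    induction k with
    | zero => intro a b _; simp
    | succ k ih =>
      intro a b hab
      rw [pow_succ', mul_smul, mul_smul, h2 _ _ (IsGPoset.smul_mono _ hab), ih a b hab]
  have hlk : ∀ (k : ℕ) a, ℓ (κ ^ k • a) = ℓ a + k := by
    intro k
    induction k with
    | zero => intro a; simp
    | succ k ih =>
      intro a
      rw [pow_succ', mul_smul, h4, ih]; push_cast; ring
  -- the increments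
  let A : ZMod p → (ZMod p → ZMod p) → ℤ := fun i n =>
    D (cf n 0) (cf n (lv i)) - D (cf (n + sg i) 0) (cf n (lv i))
  have hlow : ∀ i n, cf n 0 ≤ cf n (lv i) := by
    intro i n
    apply hle
    intro x
    by_cases h : x = i
    · right; simp [lv, h]
    · left; simp [lv, h]
  have hlow' : ∀ i n, cf (n + sg i) 0 ≤ cf n (lv i) := by
    intro i n
    apply hle
    intro x
    by_cases h : x = i
    · right; simp [lv, h]
    · left; simp [lv, h, sg, Pi.single_apply]
  have hcomm : ∀ i j n, A i n + A j (n + sg i) = A j n + A i (n + sg j) := by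
    intro i j n
    by_cases hij : i = j
    · subst hij; rfl
    have hij' : j ≠ i := fun h => hij h.symm
    obtain ⟨tt, htt⟩ : ∃ tt : ZMod p → Fin 2, tt = fun x => if x = i ∨ x = j then 1 else 0 :=
      ⟨_, rfl⟩
    obtain ⟨M, hM⟩ : ∃ M, M = cf n tt := ⟨_, rfl⟩
    have e1 : cf n (lv i) ≤ M := by
      rw [hM]
      apply hle
      rw [htt]
      intro x
      by_cases h : x = i
      · left; simp [lv, h]
      · by_cases h' : x = j
        · right; simp [lv, h', hij']
        · left; simp [lv, h, h']
    have e2 : cf n (lv j) ≤ M := by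
      rw [hM]
      apply hle
      rw [htt]
      intro x
      by_cases h : x = j
      · left; simp [lv, h]
      · by_cases h' : x = i
        · right; simp [lv, h', hij]
        · left; simp [lv, h, h']
    have e3 : cf (n + sg i) (lv j) ≤ M := by
      rw [hM]
      apply hle
      rw [htt]
      intro x
      by_cases h : x = j
      · left; simp [lv, h, sg, Pi.single_apply, hij']
      · by_cases h' : x = i
        · right; simp [lv, h', hij]
        · left; simp [lv, h, h', sg, Pi.single_apply]
    have e4 : cf (n + sg j) (lv i) ≤ M := by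
      rw [hM]
      apply hle
      rw [htt]
      intro x
      by_cases h : x = i
      · left; simp [lv, h, sg, Pi.single_apply, hij]
      · by_cases h' : x = j
        · right; simp [lv, h', hij']
        · left; simp [lv, h, h', sg, Pi.single_apply]
    have f1 : A i n = D (cf n 0) M - D (cf (n + sg i) 0) M := by
      rw [h1 _ _ _ (hlow i n) e1, h1 _ _ _ (hlow' i n) e1]
      show D (cf n 0) (cf n (lv i)) - D (cf (n + sg i) 0) (cf n (lv i)) = _
      ring
    have f2 : A j n = D (cf n 0) M - D (cf (n + sg j) 0) M := by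
      rw [h1 _ _ _ (hlow j n) e2, h1 _ _ _ (hlow' j n) e2]
      show D (cf n 0) (cf n (lv j)) - D (cf (n + sg j) 0) (cf n (lv j)) = _
      ring
    have f3 : A j (n + sg i) = D (cf (n + sg i) 0) M - D (cf (n + sg i + sg j) 0) M := by
      rw [h1 _ _ _ (hlow j (n + sg i)) e3, h1 _ _ _ (hlow' j (n + sg i)) e3]
      show D (cf (n + sg i) 0) (cf (n + sg i) (lv j)) -
        D (cf (n + sg i + sg j) 0) (cf (n + sg i) (lv j)) = _
      ring
    have f4 : A i (n + sg j) = D (cf (n + sg j) 0) M - D (cf (n + sg j + sg i) 0) M := by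
      rw [h1 _ _ _ (hlow i (n + sg j)) e4, h1 _ _ _ (hlow' i (n + sg j)) e4]
      show D (cf (n + sg j) 0) (cf (n + sg j) (lv i)) -
        D (cf (n + sg j + sg i) 0) (cf (n + sg j) (lv i)) = _
      ring
    rw [f1, f2, f3, f4, add_right_comm n (sg j) (sg i)]
    ring
  have hzero : (fun x : ZMod p => (0 : ZMod p → Fin 2) (x + 1)) = 0 := rfl
  have hlvsh : ∀ i, (fun x : ZMod p => lv i (x + 1)) = lv (i - 1) := by
    intro i
    funext x
    show (if x + 1 = i then (1 : Fin 2) else 0) = if x = i - 1 then 1 else 0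
    simp only [eq_sub_iff_add_eq]
  have hshsg : ∀ n i, sh (n + sg i) = sh n + sg (i - 1) := by
    intro n i
    funext x
    show (n (x + 1) + sg i (x + 1)) + sg (-1) x = (n (x + 1) + sg (-1) x) + sg (i - 1) x
    have : sg i (x + 1) = sg (i - 1) x := by
      show (Pi.single i (1 : ZMod p) : ZMod p → ZMod p) (x + 1) =
        (Pi.single (i - 1) (1 : ZMod p) : ZMod p → ZMod p) x
      rw [Pi.single_apply, Pi.single_apply]
      simp only [eq_sub_iff_add_eq]
    rw [this]; ring
  have hAκ : ∀ i n, A (i - 1) (sh n) = A i n := by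
    intro i n
    show D (cf (sh n) 0) (cf (sh n) (lv (i - 1))) -
      D (cf (sh n + sg (i - 1)) 0) (cf (sh n) (lv (i - 1))) =
      D (cf n 0) (cf n (lv i)) - D (cf (n + sg i) 0) (cf n (lv i))
    rw [← h2 _ _ (hlow i n), ← h2 _ _ (hlow' i n), hκcf, hκcf, hκcf, hlvsh, hshsg, hzero]
  have hAη : ∀ i n, A i (n + 1) = A i n := by
    intro i n
    show D (cf (n + 1) 0) (cf (n + 1) (lv i)) -
      D (cf (n + 1 + sg i) 0) (cf (n + 1) (lv i)) =
      D (cf n 0) (cf n (lv i)) - D (cf (n + sg i) 0) (cf n (lv i))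
    rw [← hDk p _ _ (hlow i n), ← hDk p _ _ (hlow' i n), ← hη, hηcf, hηcf, hηcf,
      add_right_comm n 1 (sg i)]
  -- the closed walk
  let v : ℕ → ZMod p → ZMod p := fun k => ∑ j ∈ Finset.range k, sg (-1 - j)
  have hv0 : v 0 = 0 := by simp [v]
  have hvs : ∀ k, v (k + 1) = v k + sg (-1 - k) := fun k => Finset.sum_range_succ _ _
  have hvsh : ∀ k, v (k + 1) = sh (v k) := by
    intro k
    induction k with
    | zero =>
      rw [hvs, hv0]
      funext x
      show (0 : ZMod p) + sg (-1 - (0 : ℕ)) x = 0 + sg (-1) x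
      simp
    | succ k ih =>
      have e : sh (v (k + 1)) = sh (v k + sg (-1 - k)) := by rw [hvs]
      rw [hvs, e, hshsg, ← ih]
      congr 2
      push_cast; ring
  have hvper : v (p * p) = 0 := by
    have hadd : ∀ k, v (k + p) = v k + 1 := by
      intro k
      have e : ∀ m : ℕ, v (k + m) = v k + ∑ j ∈ Finset.range m, sg (-1 - k - j) := by
        intro m
        induction m with
        | zero => simp
        | succ m ih =>
          rw [← add_assoc, hvs, ih, Finset.sum_range_succ, add_assoc]
          congr 3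
          push_cast; ring
      rw [e]
      congr 1
      funext x
      rw [Finset.sum_apply]
      have h5 : ∀ j ∈ Finset.range p, sg (-1 - k - j) x =
          if j = (-1 - k - x).val then 1 else 0 := by
        intro j hj
        show (Pi.single (-1 - k - j : ZMod p) (1 : ZMod p) : ZMod p → ZMod p) x = _
        rw [Pi.single_apply]
        congr 1
        apply propext
        constructor
        · intro h
          have h3 : (j : ZMod p) = -1 - k - x := by rw [h]; ring
          rw [← h3, ZMod.val_natCast, Nat.mod_eq_of_lt (Finset.mem_range.mp hj)]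
        · intro h
          rw [h, ZMod.natCast_zmod_val]; ring
      rw [Finset.sum_congr rfl h5, Finset.sum_ite_eq' (Finset.range p) _ _]
      rw [if_pos (Finset.mem_range.mpr (ZMod.val_lt _))]
      rfl
    have hmul : ∀ m : ℕ, v (m * p) = m := by
      intro m
      induction m with
      | zero => simp [hv0]
      | succ m ih => rw [add_mul, one_mul, hadd, ih]; push_cast; rfl
    rw [hmul]
    funext x
    simp
  let Tot : (ZMod p → ZMod p) → ℤ := fun n =>
    ∑ k ∈ Finset.range (p * p), A (-1 - k) (n + v k)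
  have hTot1 : ∀ i n, Tot (n + sg i) = Tot n := by
    intro i n
    have e : ∀ k : ℕ, A (-1 - k) (n + sg i + v k) =
        A (-1 - k) (n + v k) + (A i (n + v (k + 1)) - A i (n + v k)) := by
      intro k
      have := hcomm (-1 - k) i (n + v k)
      rw [hvs, ← add_assoc, add_right_comm n (sg i) (v k)]
      linarith
    show ∑ k ∈ Finset.range (p * p), A (-1 - k) (n + sg i + v k) =
      ∑ k ∈ Finset.range (p * p), A (-1 - k) (n + v k)
    rw [Finset.sum_congr rfl (fun k _ => e k), Finset.sum_add_distrib,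
      Finset.sum_range_sub (fun k => A i (n + v k)), hvper, hv0]
    ring
  have hTot2 : ∀ (k : ℕ) i n, Tot (n + k • sg i) = Tot n := by
    intro k i
    induction k with
    | zero => intro n; simp
    | succ k ih => intro n; rw [succ_nsmul, ← add_assoc, hTot1, ih]
  have hTot3 : ∀ (s : Finset (ZMod p)) n, Tot (n + ∑ i ∈ s, i.val • sg i) = Tot n := by
    intro s
    induction s using Finset.induction_on with
    | empty => intro n; simp
    | insert a s ha ih => intro n; rw [Finset.sum_insert ha, ← add_assoc, ih, hTot2]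
  have hid : (∑ i : ZMod p, i.val • sg i) = id := by
    funext x
    rw [Finset.sum_apply]
    have : ∀ i ∈ Finset.univ, (i.val • sg i) x = if i = x then x else 0 := by
      intro i _
      show i.val • (Pi.single i (1 : ZMod p) : ZMod p → ZMod p) x = _
      rw [Pi.single_apply]
      by_cases h : i = x
      · subst h; simp
      · have h' : x ≠ i := fun h' => h h'.symm
        simp [h, h']
    rw [Finset.sum_congr rfl this]
    simp
  have hTid : Tot id = Tot 0 := by
    have := hTot3 Finset.univ 0
    rw [hid, zero_add] at this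
    exact this
  -- evaluation of both totals
  have hT0 : Tot 0 = (p * p : ℕ) * A (-1) 0 := by
    have e : ∀ k : ℕ, A (-1 - k) (0 + v k) = A (-1) 0 := by
      intro k
      rw [zero_add]
      induction k with
      | zero => simp [hv0]
      | succ k ih =>
        rw [hvsh, ← ih, ← hAκ (-1 - k) (v k)]
        congr 1
        push_cast; ring
    show ∑ k ∈ Finset.range (p * p), A (-1 - k) (0 + v k) = _
    rw [Finset.sum_congr rfl (fun k _ => e k)]
    simp
  have hT1 : Tot id = (p * p : ℕ) * A (-1) id := by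
    have e : ∀ k : ℕ, A (-1 - k) (id + v k) = A (-1) id := by
      intro k
      induction k with
      | zero => simp [hv0]
      | succ k ih =>
        rw [← ih, ← hAκ (-1 - k) (id + v k)]
        have e2 : sh (id + v k) = id + v (k + 1) + 1 := by
          rw [hvsh]
          funext x
          show (x + 1) + v k (x + 1) + sg (-1) x = x + (v k (x + 1) + sg (-1) x) + 1
          ring
        rw [e2, hAη]
        congr 1
        push_cast; ring
    show ∑ k ∈ Finset.range (p * p), A (-1 - k) (id + v k) = _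
    rw [Finset.sum_congr rfl (fun k _ => e k)]
    simp
  have hAeq : A (-1) 0 = A (-1) id := by
    have h5 : ((p * p : ℕ) : ℤ) * A (-1) 0 = ((p * p : ℕ) : ℤ) * A (-1) id := by
      rw [← hT0, ← hT1, hTid]
    have h6 : ((p * p : ℕ) : ℤ) ≠ 0 := by exact_mod_cast hpp
    exact mul_left_cancel₀ h6 h5
  -- reduction modulo p²
  have hmod : ∀ i n, ((A i n : ℤ) : ZMod (p * p)) = ℓ (cf (n + sg i) 0) - ℓ (cf n 0) := by
    intro i n
    show ((D (cf n 0) (cf n (lv i)) - D (cf (n + sg i) 0) (cf n (lv i)) : ℤ) : ZMod (p * p)) = _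
    push_cast
    rw [h3 _ _ (hlow i n), h3 _ _ (hlow' i n)]
    ring
  have hm0 : ((A (-1) 0 : ℤ) : ZMod (p * p)) = 1 := by
    rw [hmod]
    have e : cf (0 + sg (-1)) 0 = κ • cf 0 0 := by
      rw [hκcf]
      congr 1
    rw [e, h4]; ring
  have hm1 : ((A (-1) id : ℤ) : ZMod (p * p)) = 1 - p := by
    rw [hmod]
    have e : κ • cf id 0 = η • cf (id + sg (-1)) 0 := by
      rw [hκcf, hηcf]
      have e5 : sh id = id + sg (-1) + 1 := by
        funext x
        show (x + 1) + sg (-1) x = x + sg (-1) x + 1
        ring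
      rw [e5]
      rfl
    have e2 := congrArg ℓ e
    have e6 : ℓ (η • cf (id + sg (-1)) 0) = ℓ (cf (id + sg (-1)) 0) + p := by
      rw [← hlk p]
      congr 1
      exact congrArg (· • cf (id + sg (-1)) 0) hη
    rw [h4, e6] at e2
    have e3 : ℓ (cf (id + sg (-1)) 0) = ℓ (cf id 0) + 1 - p := by
      rw [e2]; ring
    rw [e3]; ring
  rw [hAeq, hm1] at hm0
  have hp1 : ((p : ℕ) : ZMod (p * p)) = 0 := by
    have : (1 : ZMod (p * p)) - p - 1 = 0 := by rw [hm0]; ring
    have h7 : -((p : ℕ) : ZMod (p * p)) = 0 := by rw [← this]; ring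
    exact neg_eq_zero.mp h7
  rw [ZMod.natCast_eq_zero_iff] at hp1
  have := Nat.le_of_dvd hp0 hp1
  have h8 := hp.two_le
  nlinarith

end Pool.Agent.MP_c44c69_co
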