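import Pool.Agent.Lib.MP_c44c69_co.First

/-!
# Nice groups of composite order
-/

namespace Pool.Agent.MP_c44c69_co

/-- The group data used in the construction. -/
def HasData (G : Type) [Group G] : Prop :=
  ∃ (p : ℕ) (κ η : G), p.Prime ∧ orderOf κ = p * p ∧ η = κ ^ p ∧ (∀ g, η * g = g * η) ∧
    ∀ x : G, x ≠ 1 → ∃ k : ℕ, x ^ k ∈ Subgroup.zpowers η ∧ x ^ k ≠ 1

/-- In a group of order `p ^ k`, a nontrivial element has a power of order `p`. -/
theorem exists_pow_order {G : Type} [Group G] (p k : ℕ) (hp : p.Prime)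
    (hcard : Nat.card G = p ^ k) (x : G) (hx : x ≠ 1) :
    ∃ m : ℕ, x ^ m ≠ 1 ∧ (x ^ m) ^ p = 1 := by
  have h1 : orderOf x ∣ p ^ k := by rw [← hcard]; exact orderOf_dvd_natCard x
  obtain ⟨t, -, ht⟩ := (Nat.dvd_prime_pow hp).mp h1
  have ht0 : t ≠ 0 := by
    rintro rfl
    rw [pow_zero, orderOf_eq_one_iff] at ht
    exact hx ht
  obtain ⟨s, rfl⟩ := Nat.exists_eq_succ_of_ne_zero ht0
  refine ⟨p ^ s, ?_, ?_⟩
  · intro h
    have h2 := orderOf_dvd_of_pow_eq_one h
    rw [ht] at h2
    have h3 := Nat.le_of_dvd (pow_pos hp.pos _) h2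
    have h4 : p ^ s < p ^ (s + 1) := Nat.pow_lt_pow_right hp.one_lt (Nat.lt_succ_self s)
    exact absurd h3 (not_le.mpr h4)
  · rw [← pow_mul, ← pow_succ]
    have h5 : x ^ p ^ (s + 1) = 1 := by
      rw [← ht]
      exact pow_orderOf_eq_one x
    exact h5

theorem hasData_cyclic (G : Type) [Group G] [IsCyclic G] (p k : ℕ) (hp : p.Prime) (hk : 2 ≤ k)
    (hcard : Nat.card G = p ^ k) : HasData G := by
  have hp0 := hp.pos
  have : Finite G := Nat.finite_of_card_ne_zero (by rw [hcard]; exact (pow_pos hp0 _).ne')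
  obtain ⟨g, hg⟩ := IsCyclic.exists_generator (α := G)
  have hgo : orderOf g = p ^ k := by
    rw [← hcard]
    exact orderOf_eq_card_of_forall_mem_zpowers hg
  obtain ⟨j, rfl⟩ : ∃ j, k = j + 2 := ⟨k - 2, by omega⟩
  refine ⟨p, g ^ (p ^ j), g ^ (p ^ (j + 1)), hp, ?_, ?_, ?_, ?_⟩
  · rw [orderOf_pow' _ (pow_pos hp0 _).ne', hgo]
    have : Nat.gcd (p ^ (j + 2)) (p ^ j) = p ^ j :=
      Nat.gcd_eq_right (pow_dvd_pow p (by omega))
    rw [this, pow_add, Nat.mul_div_cancel_left _ (pow_pos hp0 _), pow_two]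
  · rw [← pow_mul, ← pow_succ]
  · intro x
    have : CommGroup G := IsCyclic.commGroup
    obtain ⟨m, hm⟩ := Subgroup.mem_zpowers_iff.mp (hg x)
    rw [← hm]
    rw [← zpow_natCast, ← zpow_add, ← zpow_add, add_comm]
  · intro x hx
    obtain ⟨m, hm1, hm2⟩ := exists_pow_order p (j + 2) hp hcard x hx
    refine ⟨m, ?_, hm1⟩
    obtain ⟨i, hi⟩ := Subgroup.mem_zpowers_iff.mp (hg (x ^ m))
    rw [← hi] at hm2 ⊢
    rw [← zpow_natCast, ← zpow_mul] at hm2
    have h1 := orderOf_dvd_iff_zpow_eq_one.mpr hm2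
    rw [hgo] at h1
    have h2 : ((p ^ (j + 1) : ℕ) : ℤ) ∣ i := by
      have h3 : ((p ^ (j + 2) : ℕ) : ℤ) = ((p ^ (j + 1) : ℕ) : ℤ) * (p : ℤ) := by
        push_cast; ring
      rw [h3] at h1
      exact (mul_dvd_mul_iff_right (by exact_mod_cast hp.ne_zero)).mp h1
    obtain ⟨c, rfl⟩ := h2
    rw [Subgroup.mem_zpowers_iff]
    refine ⟨c, ?_⟩
    rw [← zpow_natCast, ← zpow_mul]

theorem hasData_quaternion (G : Type) [Group G] (n k : ℕ) (hn : 2 ≤ n) (hnk : 4 * n = 2 ^ k)
    (e : G ≃* QuaternionGroup n) : HasData G := by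
  have : NeZero n := ⟨by omega⟩
  have hcard : Nat.card G = 2 ^ k := by
    rw [Nat.card_congr e.toEquiv, ← hnk, Nat.card_eq_fintype_card, QuaternionGroup.card]
  have hsq : (QuaternionGroup.xa 0 : QuaternionGroup n) ^ 2 = QuaternionGroup.a n := by
    rw [pow_two, QuaternionGroup.xa_mul_xa]
    simp
  have hcen : ∀ y : QuaternionGroup n, QuaternionGroup.a (n : ZMod (2 * n)) * y =
      y * QuaternionGroup.a (n : ZMod (2 * n)) := by
    have h2n : ((n : ZMod (2 * n)) + n) = 0 := by
      have : ((2 * n : ℕ) : ZMod (2 * n)) = 0 := ZMod.natCast_self _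
      push_cast at this
      rw [← this]; ring
    intro y
    rcases y with i | i
    · rw [QuaternionGroup.a_mul_a, QuaternionGroup.a_mul_a, add_comm]
    · rw [QuaternionGroup.a_mul_xa, QuaternionGroup.xa_mul_a]
      congr 1
      have h : (n : ZMod (2 * n)) = -n := eq_neg_of_add_eq_zero_left h2n
      rw [sub_eq_add_neg, ← h]
  refine ⟨2, e.symm (QuaternionGroup.xa 0), e.symm (QuaternionGroup.a n), Nat.prime_two, ?_, ?_,
    ?_, ?_⟩
  · rw [MulEquiv.orderOf_eq, QuaternionGroup.orderOf_xa]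
  · rw [← map_pow, hsq]
  · intro g
    apply e.injective
    rw [map_mul, map_mul, e.apply_symm_apply]
    exact hcen _
  · intro x hx
    obtain ⟨m, hm1, hm2⟩ := exists_pow_order 2 k Nat.prime_two hcard x hx
    refine ⟨m, ?_, hm1⟩
    have h1 : e (x ^ m) ≠ 1 := by
      intro h
      exact hm1 (by rw [← map_one e] at h; exact e.injective h)
    have h2 : (e (x ^ m)) ^ 2 = 1 := by rw [← map_pow, hm2, map_one]
    have h3 : e (x ^ m) = QuaternionGroup.a n := by
      generalize e (x ^ m) = y at h1 h2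
      rcases y with i | i
      · rw [pow_two, QuaternionGroup.a_mul_a, QuaternionGroup.one_def] at h2
        injection h2 with h2
        have hi0 : i ≠ 0 := by
          rintro rfl
          exact h1 QuaternionGroup.one_def.symm
        have : NeZero (2 * n) := ⟨by omega⟩
        have h4 : ((i.val + i.val : ℕ) : ZMod (2 * n)) = 0 := by
          push_cast
          rw [ZMod.natCast_zmod_val, h2]
        rw [ZMod.natCast_eq_zero_iff] at h4
        have h5 : i.val ≠ 0 := by
          intro h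
          exact hi0 ((ZMod.val_eq_zero i).mp h)
        have h6 := ZMod.val_lt i
        obtain ⟨c, hc⟩ := h4
        have h7 : c = 1 := by
          have h8 : c < 2 := by
            by_contra h9
            rw [not_lt] at h9
            have : 2 * n * 2 ≤ 2 * n * c := Nat.mul_le_mul_left _ h9
            omega
          have h10 : c ≠ 0 := by
            rintro rfl
            omega
          omega
        rw [h7] at hc
        have h11 : i.val = n := by omega
        have h12 : ((i.val : ℕ) : ZMod (2 * n)) = ((n : ℕ) : ZMod (2 * n)) :=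
          congrArg (fun m : ℕ => (m : ZMod (2 * n))) h11
        rw [ZMod.natCast_zmod_val] at h12
        rw [h12]
      · exfalso
        rw [pow_two, QuaternionGroup.xa_mul_xa, QuaternionGroup.one_def] at h2
        injection h2 with h2
        rw [add_sub_cancel_right, ZMod.natCast_eq_zero_iff] at h2
        have := Nat.le_of_dvd (by omega) h2
        omega
    rw [← h3, e.symm_apply_apply]
    exact Subgroup.mem_zpowers _

theorem hasData_of_nice (G : Type) [Group G] (hG : IsNice G) (h1 : Nat.card G ≠ 1)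
    (h2 : ¬ (Nat.card G).Prime) : HasData G := by
  rcases hG with ⟨hc, p, k, hp, hk⟩ | ⟨n, k, hn, hnk, ⟨e⟩⟩
  · refine hasData_cyclic G p k hp ?_ hk
    by_contra h
    have h3 : k = 0 ∨ k = 1 := by omega
    rcases h3 with rfl | rfl
    · exact h1 (by rw [hk, pow_zero])
    · exact h2 (by rw [hk, pow_one]; exact hp)
  · exact hasData_quaternion G n k hn hnk e

end Pool.Agent.MP_c44c69_co
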