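import Pool.Agent.Lib.MP_c44c69_co.Cocycle

/-!
# The second factor `(G ⧸ ⟨η⟩) × Sd (Q_2 G)`
-/

namespace Pool.Agent.MP_c44c69_co

variable {G : Type} [Group G]

/-- The set `(G ⧸ ⟨η⟩) × Sd (Q_2 G)`. -/
@[ext]
structure Sec (G : Type) [Group G] (η : G) where
  /-- the coset -/
  cos : G ⧸ (Subgroup.zpowers η)
  /-- the chain -/
  chn : Sd (QPoset G 2)

instance (η : G) : PartialOrder (Sec G η) where
  le x y := x.cos = y.cos ∧ x.chn ≤ y.chn
  le_refl x := ⟨rfl, le_refl _⟩
  le_trans x y z h h' := ⟨h.1.trans h'.1, h.2.trans h'.2⟩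
  le_antisymm x y h h' := Sec.ext h.1 (le_antisymm h.2 h'.2)

instance (η : G) : MulAction G (Sec G η) where
  smul g x := ⟨g • x.cos, g • x.chn⟩
  one_smul x := by
    show (⟨(1 : G) • x.cos, (1 : G) • x.chn⟩ : Sec G η) = x
    rw [one_smul, one_smul]
  mul_smul g h x := by
    show (⟨(g * h) • x.cos, (g * h) • x.chn⟩ : Sec G η) = ⟨g • h • x.cos, g • h • x.chn⟩
    rw [mul_smul, mul_smul]

theorem Sec.smul_cos (η g : G) (x : Sec G η) : (g • x).cos = g • x.cos := rfl
theorem Sec.smul_chn (η g : G) (x : Sec G η) : (g • x).chn = g • x.chn := rfl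
theorem Sec.le_def (η : G) (x y : Sec G η) : x ≤ y ↔ x.cos = y.cos ∧ x.chn ≤ y.chn := Iff.rfl

instance (η : G) : IsGPoset G (Sec G η) where
  smul_mono g a b h := ⟨congrArg (g • ·) h.1, IsGPoset.smul_mono g h.2⟩

instance [Finite G] (η : G) : Finite (Sec G η) :=
  Finite.of_injective (fun x : Sec G η => (x.cos, x.chn)) (by
    intro x y h
    simp only [Prod.mk.injEq] at h
    exact Sec.ext h.1 h.2)

theorem Sec.isFree (η : G) : IsFree G (Sec G η) := by
  intro g p h
  exact Sd.isFree QPoset.isFree g p.chn (congrArg Sec.chn h)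

theorem Sec.isSimplicial (η : G) : IsSimplicial (Sec G η) := by
  intro p
  obtain ⟨n, ⟨e⟩⟩ := Sd.isSimplicial (Q := QPoset G 2) p.chn
  refine ⟨n, ⟨OrderIso.trans ?_ e⟩⟩
  refine { toFun := fun x => ⟨x.1.chn, x.2.2⟩, invFun := fun x => ⟨⟨p.cos, x.1⟩, ⟨rfl, x.2⟩⟩,
           left_inv := ?_, right_inv := ?_, map_rel_iff' := ?_ }
  · intro x
    apply Subtype.ext
    apply Sec.ext
    · exact x.2.1.symm
    · rfl
  · intro x
    rfl
  · intro a b
    constructor
    · intro h
      exact ⟨a.2.1.trans b.2.1.symm, h⟩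
    · intro h
      exact h.2

/-- There is no `G`-map from the second factor to `Q_1 G` if `η` has prime order. -/
theorem Sec.no_map (η : G) (hη : (orderOf η).Prime) :
    ¬ ∃ f : Sec G η → QPoset G 1, IsGMap G f := by
  rintro ⟨f, hf1, hf2⟩
  let F : Sd (QPoset G 2) → QPoset G 1 := fun s => f ⟨((1 : G) : G ⧸ (Subgroup.zpowers η)), s⟩
  have hF : Monotone F := fun s t h => hf1 ⟨rfl, h⟩
  have hκ : ∀ s, F (η • s) = η • F s := by
    intro s
    show f _ = η • f _
    rw [← hf2]
    congr 1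
    apply Sec.ext
    · show ((1 : G) : G ⧸ (Subgroup.zpowers η)) = η • ((1 : G) : G ⧸ (Subgroup.zpowers η))
      rw [MulAction.Quotient.smul_coe, QuotientGroup.eq]
      simp
    · rfl
  obtain ⟨ℓ, D, h1, h2, h3, h4⟩ := exists_cocycle η hη.ne_zero F hF hκ
  -- the points
  let x : ℕ → QPoset G 2 := fun i => ⟨η ^ i, 0⟩
  let y : ℕ → QPoset G 2 := fun i => ⟨η ^ i, 1⟩
  let z : QPoset G 2 := ⟨1, 2⟩
  have hxy : ∀ i j, x i ≤ y j := fun i j => Or.inr (by show (0 : Fin 3) < 1; decide)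
  have hyz : ∀ i, y i ≤ z := fun i => Or.inr (by show (1 : Fin 3) < 2; decide)
  have hx : ∀ i, η • x i = x (i + 1) := by
    intro i
    apply QPoset.ext
    · show η * η ^ i = η ^ (i + 1)
      rw [pow_succ']
    · rfl
  have hy : ∀ i, η • y i = y (i + 1) := by
    intro i
    apply QPoset.ext
    · show η * η ^ i = η ^ (i + 1)
      rw [pow_succ']
    · rfl
  set A : ℤ := D (x 0) (y 0) - D (x 1) (y 0) with hA
  have hconst : ∀ i, D (x i) (y i) - D (x (i + 1)) (y i) = A := by
    intro i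
    induction i with
    | zero => rfl
    | succ i ih =>
      rw [← ih, ← h2 (x i) (y i) (hxy _ _), ← h2 (x (i + 1)) (y i) (hxy _ _), hx, hx, hy]
  have hT : ∀ i, D (x i) z - D (x (i + 1)) z = A := by
    intro i
    rw [← hconst i, h1 (x i) (y i) z (hxy _ _) (hyz _),
      h1 (x (i + 1)) (y i) z (hxy _ _) (hyz _)]
    ring
  have hsum : ∀ n : ℕ, D (x 0) z - D (x n) z = n * A := by
    intro n
    induction n with
    | zero => simp
    | succ n ih =>
      have := hT n
      push_cast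
      linarith
  have hper : x (orderOf η) = x 0 := by
    apply QPoset.ext
    · show η ^ (orderOf η) = η ^ 0
      rw [pow_orderOf_eq_one, pow_zero]
    · rfl
  have hA0 : A = 0 := by
    have := hsum (orderOf η)
    rw [hper, sub_self] at this
    rcases mul_eq_zero.mp this.symm with h | h
    · exact absurd (by exact_mod_cast h) hη.ne_zero
    · exact h
  have hA1 : ((A : ℤ) : ZMod (orderOf η)) = 1 := by
    rw [hA]
    push_cast
    rw [h3 _ _ (hxy _ _), h3 _ _ (hxy _ _), ← hx, h4]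
    ring
  rw [hA0] at hA1
  have : Fact (orderOf η).Prime := ⟨hη⟩
  simp at hA1

end Pool.Agent.MP_c44c69_co
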