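import Pool.Agent.Lib.MP_c44c69_co.Defs

/-!
# Barycentric subdivision of a G-poset
-/

namespace Pool.Agent.MP_c44c69_co

/-- The poset of nonempty finite chains of `Q`, ordered by inclusion. -/
def Sd (Q : Type) [PartialOrder Q] : Type :=
  {s : Finset Q // s.Nonempty ∧ IsChain (· ≤ ·) (s : Set Q)}

namespace Sd

variable {Q : Type} [PartialOrder Q]

instance : PartialOrder (Sd Q) := inferInstanceAs (PartialOrder {_s : Finset Q // _})

theorem le_def (s t : Sd Q) : s ≤ t ↔ s.1 ⊆ t.1 := Iff.rfl

instance [Finite Q] : Finite (Sd Q) := by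
  have := Fintype.ofFinite Q
  exact inferInstanceAs (Finite {s : Finset Q // _})

section action

variable {G : Type} [Group G] [MulAction G Q] [IsGPoset G Q]

instance : MulAction G (Sd Q) where
  smul g s := ⟨s.1.map (MulAction.toPerm g).toEmbedding, s.2.1.map, by
    intro x hx y hy hxy
    simp only [Finset.coe_map, Equiv.coe_toEmbedding, Set.mem_image, Finset.mem_coe,
      MulAction.toPerm_apply] at hx hy
    obtain ⟨x, hx, rfl⟩ := hx
    obtain ⟨y, hy, rfl⟩ := hy
    rcases s.2.2.total hx hy with h | h
    · exact Or.inl (IsGPoset.smul_mono g h)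
    · exact Or.inr (IsGPoset.smul_mono g h)⟩
  one_smul s := by
    apply Subtype.ext
    ext x
    change x ∈ s.1.map (MulAction.toPerm (1 : G)).toEmbedding ↔ x ∈ s.1
    simp
  mul_smul g h s := by
    apply Subtype.ext
    ext x
    change x ∈ s.1.map (MulAction.toPerm (g * h)).toEmbedding ↔
      x ∈ (s.1.map (MulAction.toPerm h).toEmbedding).map (MulAction.toPerm g).toEmbedding
    simp [mul_smul]

theorem mem_smul (g : G) (s : Sd Q) (x : Q) : x ∈ (g • s).1 ↔ g⁻¹ • x ∈ s.1 := by
  change x ∈ s.1.map (MulAction.toPerm g).toEmbedding ↔ g⁻¹ • x ∈ s.1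
  simp only [Finset.mem_map, Equiv.coe_toEmbedding, MulAction.toPerm_apply]
  constructor
  · rintro ⟨a, ha, rfl⟩
    simpa using ha
  · intro h
    exact ⟨_, h, by simp⟩

theorem smul_mem_smul (g : G) (s : Sd Q) (x : Q) : g • x ∈ (g • s).1 ↔ x ∈ s.1 := by
  rw [mem_smul, inv_smul_smul]

instance : IsGPoset G (Sd Q) where
  smul_mono g s t h := by
    intro x hx
    rw [mem_smul] at hx ⊢
    exact h hx

end action

/-- Existence of the largest element of a nonempty finite chain. -/
theorem exists_top (s : Sd Q) : ∃ a ∈ s.1, ∀ b ∈ s.1, b ≤ a := by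
  obtain ⟨a, ha⟩ := s.1.exists_maximal s.2.1
  refine ⟨a, ha.1, ?_⟩
  intro b hb
  rcases s.2.2.total ha.1 hb with h | h
  · exact ha.2 hb h
  · exact h

/-- The largest element of a chain. -/
noncomputable def top (s : Sd Q) : Q := s.exists_top.choose

theorem top_mem (s : Sd Q) : s.top ∈ s.1 := s.exists_top.choose_spec.1

theorem le_top (s : Sd Q) {b : Q} (hb : b ∈ s.1) : b ≤ s.top := s.exists_top.choose_spec.2 b hb

theorem eq_top (s : Sd Q) {a : Q} (ha : a ∈ s.1) (h : ∀ b ∈ s.1, b ≤ a) : a = s.top :=
  le_antisymm (s.le_top ha) (h _ s.top_mem)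

theorem top_mono {s t : Sd Q} (h : s ≤ t) : s.top ≤ t.top := t.le_top (h s.top_mem)

variable {G : Type} [Group G] [MulAction G Q] [IsGPoset G Q]

theorem top_smul (g : G) (s : Sd Q) : (g • s).top = g • s.top := by
  symm
  apply eq_top
  · rw [smul_mem_smul]; exact s.top_mem
  · intro b hb
    rw [mem_smul] at hb
    have := IsGPoset.smul_mono g (s.le_top hb)
    simpa using this

theorem isFree (h : IsFree G Q) : IsFree G (Sd Q) := by
  intro g s hs
  apply h g s.top
  rw [← top_smul, hs]

omit [Group G] [MulAction G Q] [IsGPoset G Q] in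
theorem isSimplicial : IsSimplicial (Sd Q) := by
  classical
  intro s
  obtain ⟨n, hn⟩ : ∃ n, s.1.card = n + 1 :=
    ⟨s.1.card - 1, by have := s.2.1.card_pos; omega⟩
  let e : s.1 ≃ Fin (n + 1) := s.1.equivFinOfCardEq hn
  refine ⟨n, ⟨?_⟩⟩
  let toF : Set.Iic s → {t : Finset (Fin (n + 1)) // t.Nonempty} := fun t =>
    ⟨(Finset.univ.filter (fun x : Fin (n + 1) => ((e.symm x : s.1) : Q) ∈ t.1.1)), by
      obtain ⟨a, ha⟩ := t.1.2.1
      refine ⟨e ⟨a, t.2 ha⟩, ?_⟩
      simp [ha]⟩
  let inF : {t : Finset (Fin (n + 1)) // t.Nonempty} → Set.Iic s := fun t =>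
    ⟨⟨t.1.map (e.symm.toEmbedding.trans (Function.Embedding.subtype _)), t.2.map, by
      intro x hx y hy hxy
      simp only [Finset.coe_map, Set.mem_image, Finset.mem_coe, Function.Embedding.trans_apply,
        Equiv.coe_toEmbedding, Function.Embedding.coe_subtype] at hx hy
      obtain ⟨x, hx, rfl⟩ := hx
      obtain ⟨y, hy, rfl⟩ := hy
      exact s.2.2.total (e.symm x).2 (e.symm y).2⟩, by
      intro x hx
      simp only [Finset.mem_map, Function.Embedding.trans_apply,
        Equiv.coe_toEmbedding, Function.Embedding.coe_subtype] at hx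
      obtain ⟨x, hx, rfl⟩ := hx
      exact (e.symm x).2⟩
  refine { toFun := toF, invFun := inF, left_inv := ?_, right_inv := ?_, map_rel_iff' := ?_ }
  · intro t
    apply Subtype.ext
    apply Subtype.ext
    ext x
    simp only [toF, inF, Finset.mem_map, Finset.mem_filter, Finset.mem_univ, true_and,
      Function.Embedding.trans_apply, Equiv.coe_toEmbedding, Function.Embedding.coe_subtype]
    constructor
    · rintro ⟨a, ha, rfl⟩
      exact ha
    · intro hx
      exact ⟨e ⟨x, t.2 hx⟩, by simpa using hx, by simp⟩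
  · intro t
    apply Subtype.ext
    ext x
    simp only [toF, inF, Finset.mem_map, Finset.mem_filter, Finset.mem_univ, true_and,
      Function.Embedding.trans_apply, Equiv.coe_toEmbedding, Function.Embedding.coe_subtype]
    constructor
    · rintro ⟨a, ha, hax⟩
      have : a = x := by
        have := Subtype.ext hax
        exact e.symm.injective this
      rwa [← this]
    · intro hx
      exact ⟨x, hx, rfl⟩
  · intro a b
    constructor
    · intro h x hx
      have h1 : e ⟨x, a.2 hx⟩ ∈ (toF a).1 := by simp [toF, hx]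
      have h2 := h h1
      simpa [toF] using h2
    · intro h x hx
      have h1 : ((e.symm x : s.1) : Q) ∈ a.1.1 := by simpa [toF] using hx
      have h2 : ((e.symm x : s.1) : Q) ∈ b.1.1 := h h1
      change x ∈ (toF b).1
      simp [toF, h2]

/-- The one-element chain. -/
def single (a : Q) : Sd Q := ⟨{a}, Finset.singleton_nonempty a, by simp [IsChain]⟩

open Classical in
/-- The chain `{a, b}` for comparable `a ≤ b`. -/
noncomputable def pair (a b : Q) (h : a ≤ b) : Sd Q := ⟨{a, b}, ⟨a, by simp⟩, by
  rw [Finset.coe_pair]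
  exact IsChain.pair h⟩

open Classical in
/-- The chain `{a, b, c}` for `a ≤ b ≤ c`. -/
noncomputable def triple (a b c : Q) (h : a ≤ b) (h' : b ≤ c) : Sd Q :=
  ⟨{a, b, c}, ⟨a, by simp⟩, by
    intro x hx y hy _
    simp only [Finset.coe_insert, Finset.coe_singleton, Set.mem_insert_iff,
      Set.mem_singleton_iff] at hx hy
    have h'' := h.trans h'
    rcases hx with rfl | rfl | rfl <;> rcases hy with rfl | rfl | rfl <;> simp [h, h', h'']⟩

omit [Group G] [MulAction G Q] [IsGPoset G Q]

theorem single_le_pair_left (a b : Q) (h : a ≤ b) : single a ≤ pair a b h := by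
  classical
  rw [le_def]; simp [single, pair]

theorem single_le_pair_right (a b : Q) (h : a ≤ b) : single b ≤ pair a b h := by
  classical
  rw [le_def]; simp [single, pair]

theorem pair_le_triple₁ (a b c : Q) (h : a ≤ b) (h' : b ≤ c) :
    pair a b h ≤ triple a b c h h' := by
  classical
  rw [le_def]; intro x; simp only [pair, triple, Finset.mem_insert, Finset.mem_singleton]; tauto

theorem pair_le_triple₂ (a b c : Q) (h : a ≤ b) (h' : b ≤ c) :
    pair b c h' ≤ triple a b c h h' := by
  classical
  rw [le_def]; intro x; simp only [pair, triple, Finset.mem_insert, Finset.mem_singleton]; tauto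

theorem pair_le_triple₃ (a b c : Q) (h : a ≤ b) (h' : b ≤ c) :
    pair a c (h.trans h') ≤ triple a b c h h' := by
  classical
  rw [le_def]; intro x; simp only [pair, triple, Finset.mem_insert, Finset.mem_singleton]; tauto

variable [Group G] [MulAction G Q] [IsGPoset G Q]

theorem smul_single (g : G) (a : Q) : g • single a = single (g • a) := by
  apply Subtype.ext
  ext x
  rw [mem_smul]
  simp only [single, Finset.mem_singleton]
  rw [inv_smul_eq_iff]

theorem smul_pair (g : G) (a b : Q) (h : a ≤ b) :
    g • pair a b h = pair (g • a) (g • b) (IsGPoset.smul_mono g h) := by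
  classical
  apply Subtype.ext
  ext x
  rw [mem_smul]
  simp only [pair, Finset.mem_insert, Finset.mem_singleton]
  rw [inv_smul_eq_iff, inv_smul_eq_iff]

end Sd

end Pool.Agent.MP_c44c69_co
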